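import Pool.Agent.V8H75.HL.Var
import Pool.Agent.H381R2.HR.Main
import Pool.Agent.H305R2.MertensE

set_option autoImplicit false

namespace Pool.Agent.V8H75.HL

open Finset Filter Topology

/-- the primes up to `y` -/
def primesTo (y : ℕ) : Finset ℕ := (Icc 1 y).filter Nat.Prime

theorem prime_of_mem {y p : ℕ} (h : p ∈ primesTo y) : p.Prime := (mem_filter.1 h).2

/-- The number of primes of a window of the class `a` is at most the number of survivors. -/
theorem window_le (y x : ℕ) (hx : y ≤ x) (a : primesTo y → ℕ)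
    (ha : ∀ p : primesTo y, x ≡ a p [MOD p]) :
    (Nat.primeCounting (x + y) : ℝ) - Nat.primeCounting x ≤ (surv (primesTo y) y a).card := by
  have h1 : (x + y + 1).primesBelow ⊆
      (x + 1).primesBelow ∪ (surv (primesTo y) y a).image (fun h => x + h) := by
    intro q hq
    rw [Nat.mem_primesBelow] at hq
    rw [mem_union, mem_image]
    by_cases hqx : q < x + 1
    · exact Or.inl (Nat.mem_primesBelow.2 ⟨hqx, hq.2⟩)
    · refine Or.inr ⟨q - x, ?_, by omega⟩
      rw [surv, mem_filter, mem_Ioc]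
      refine ⟨by omega, fun p hp => ?_⟩
      have hpp := prime_of_mem p.2
      have hpy : (p : ℕ) ≤ y := (mem_Icc.1 (mem_filter.1 p.2).1).2
      have h2 : x + (q - x) ≡ a p + (q - x) [MOD p] := Nat.ModEq.add_right _ (ha p)
      have h3 : (p : ℕ) ∣ x + (q - x) := (Nat.ModEq.dvd_iff h2 dvd_rfl).2 hp
      have h4 : x + (q - x) = q := by omega
      rw [h4] at h3
      have h5 := (Nat.prime_dvd_prime_iff_eq hpp hq.2).1 h3
      omega
  have h2 := (card_le_card h1).trans (card_union_le _ _)
  have h3 := card_image_le (s := surv (primesTo y) y a) (f := fun h => x + h)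
  have e1 : (x + y + 1).primesBelow.card = Nat.primeCounting (x + y) :=
    Nat.primesBelow_card_eq_primeCounting' _
  have e2 : (x + 1).primesBelow.card = Nat.primeCounting x :=
    Nat.primesBelow_card_eq_primeCounting' _
  rw [e1, e2] at h2
  have h4 : Nat.primeCounting (x + y) ≤ Nat.primeCounting x + (surv (primesTo y) y a).card :=
    h2.trans (Nat.add_le_add_left h3 _)
  have h5 : (Nat.primeCounting (x + y) : ℝ) ≤
      Nat.primeCounting x + (surv (primesTo y) y a).card := by exact_mod_cast h4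
  linarith

/-- Mertens. -/
theorem mertens : Tendsto (fun y : ℕ => Real.log y * ∏ p ∈ primesTo y, (1 - (p : ℝ)⁻¹)) atTop
    (𝓝 (Real.exp (-Real.eulerMascheroniConstant))) := by
  have h := Pool.Agent.H305R2.mertens_three.inv₀ (Real.exp_pos _).ne'
  rw [← Real.exp_neg] at h
  refine h.congr fun y => ?_
  rw [inv_div, Finset.prod_inv_distrib, div_inv_eq_mul]
  rfl

theorem pnt : ∃ C : ℝ, 0 < C ∧ ∀ y : ℕ, 2 ≤ y →
    (y : ℝ) / Real.log y - C * (y / (Real.log y) ^ 2) ≤ Nat.primeCounting y := by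
  obtain ⟨C, hC, h⟩ := Pool.Agent.H381R2.HR.Asm.pnt2
  refine ⟨C, hC, fun y hy => ?_⟩
  have h1 := h y (by exact_mod_cast hy)
  rw [Nat.floor_natCast] at h1
  have := (abs_le.1 h1).1
  linarith

open Classical in
/-- Almost all residue classes. -/
theorem almost_all {c : ℝ} (hc : c < 1 - Real.exp (-Real.eulerMascheroniConstant)) :
    ∃ C : ℝ, ∀ᶠ y : ℕ in atTop,
      (((box (primesTo y)).filter fun a => (Nat.primeCounting y : ℝ) - c * (y / Real.log y) <
        ((surv (primesTo y) y a).card : ℝ)).card : ℝ) ≤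
      C * (Real.log y / y) * ∏ p ∈ primesTo y, (p : ℝ) := by
  set g : ℝ := Real.exp (-Real.eulerMascheroniConstant) with hg
  set δ : ℝ := (1 - g - c) / 3 with hδ
  have hδ0 : 0 < δ := by rw [hδ]; linarith
  have hg0 : 0 < g := Real.exp_pos _
  obtain ⟨C0, hC0, hpnt⟩ := pnt
  refine ⟨(g + δ) / δ ^ 2, ?_⟩
  have hlog : Tendsto (fun y : ℕ => Real.log y) atTop atTop :=
    Real.tendsto_log_atTop.comp tendsto_natCast_atTop_atTop
  filter_upwards [mertens.eventually (gt_mem_nhds (show g < g + δ by linarith)),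
    hlog.eventually_ge_atTop (C0 / δ), hlog.eventually_ge_atTop 1, eventually_ge_atTop 2]
    with y h1 h2 h3 h4
  have hy0 : (0 : ℝ) < y := by exact_mod_cast (show 0 < y by omega)
  set L : ℝ := Real.log y with hL
  have hL0 : 0 < L := by linarith
  set w : ℝ := ∏ p ∈ primesTo y, (1 - (p : ℝ)⁻¹) with hw
  have hQ0 : 0 ≤ ∏ p ∈ primesTo y, (p : ℝ) := prod_nonneg fun p _ => Nat.cast_nonneg p
  have h5 := hpnt y h4
  have hw1 : w ≤ (g + δ) / L := by
    rw [le_div_iff₀ hL0]
    linarith [mul_comm L w]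
  have h6 : C0 * (y / L ^ 2) ≤ δ * (y / L) := by
    have h7 : C0 ≤ δ * L := by
      rw [div_le_iff₀ hδ0] at h2
      linarith [mul_comm δ L]
    have h8 : δ * (y / L) = (δ * L) * (y / L ^ 2) := by field_simp
    rw [h8]
    exact mul_le_mul_of_nonneg_right h7 (by positivity)
  have h7 : y * w + δ * (y / L) ≤ (Nat.primeCounting y : ℝ) - c * (y / L) := by
    have h8 : y * w ≤ (g + δ) * (y / L) := by
      calc y * w ≤ y * ((g + δ) / L) := mul_le_mul_of_nonneg_left hw1 hy0.le
        _ = (g + δ) * (y / L) := by ring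
    have h9 : c * (y / L) = (1 - g - 3 * δ) * (y / L) := by rw [hδ]; ring
    rw [h9]
    have h10 : 0 ≤ y / L := by positivity
    nlinarith [h5, h6, h8]
  have h8 := chebyshev (primesTo y) (fun p hp => prime_of_mem hp) y (δ * (y / L)) (by positivity)
  have h9 : (((box (primesTo y)).filter fun a => (Nat.primeCounting y : ℝ) - c * (y / L) <
        ((surv (primesTo y) y a).card : ℝ)).card : ℝ) ≤
      (((box (primesTo y)).filter fun a =>
      y * w + δ * (y / L) ≤ ((surv (primesTo y) y a).card : ℝ)).card : ℝ) := by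
    have : ((box (primesTo y)).filter fun a => (Nat.primeCounting y : ℝ) - c * (y / L) <
        ((surv (primesTo y) y a).card : ℝ)) ⊆ ((box (primesTo y)).filter fun a =>
      y * w + δ * (y / L) ≤ ((surv (primesTo y) y a).card : ℝ)) := by
      intro a ha
      rw [mem_filter] at ha ⊢
      exact ⟨ha.1, h7.trans ha.2.le⟩
    exact_mod_cast card_le_card this
  refine h9.trans (h8.trans ?_)
  rw [← hw]
  calc (∏ p ∈ primesTo y, (p : ℝ)) * (y * w) / (δ * (y / L)) ^ 2
      ≤ (∏ p ∈ primesTo y, (p : ℝ)) * (y * ((g + δ) / L)) / (δ * (y / L)) ^ 2 := by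
        gcongr
    _ = (g + δ) / δ ^ 2 * (L / y) * ∏ p ∈ primesTo y, (p : ℝ) := by
        field_simp

/-- There are residue classes with more survivors than `π(y)`. -/
theorem exists_class {α : ℝ} (hα : α < 1 / 2) : ∀ᶠ y : ℕ in atTop,
    ∃ a ∈ box (primesTo y), (Nat.primeCounting y : ℝ) +
      α * (y * Real.log (Real.log (Real.log y)) / (Real.log y) ^ 2) ≤
        (surv (primesTo y) y a).card := by
  obtain ⟨x0, h⟩ := Pool.Agent.H381R2.HR.final hα
  filter_upwards [eventually_ge_atTop ⌈x0⌉₊] with y hy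
  have hy' : x0 ≤ (y : ℝ) := (Nat.le_ceil x0).trans (by exact_mod_cast hy)
  obtain ⟨S, -, hS, hadm, hcard⟩ := h y hy'
  rw [Nat.floor_natCast] at hcard
  choose r hr using fun p : primesTo y => hadm p (prime_of_mem p.2)
  have hpos : ∀ p : primesTo y, (0 : ℤ) < (p : ℕ) := fun p => by
    exact_mod_cast (prime_of_mem p.2).pos
  refine ⟨fun p => ((-1 - r p) % ((p : ℕ) : ℤ)).toNat, ?_, hcard.trans ?_⟩
  · rw [box, Fintype.mem_piFinset]
    intro p
    rw [mem_range]
    have h1 := Int.emod_nonneg (-1 - r p) (hpos p).ne'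
    have h2 := Int.emod_lt_of_pos (-1 - r p) (hpos p)
    omega
  · have h1 : S.card ≤ (surv (primesTo y) y
        fun p => ((-1 - r p) % ((p : ℕ) : ℤ)).toNat).card := by
      refine card_le_card_of_injOn (fun s => (s + 1).toNat) ?_ ?_
      · intro s hs
        have hs' := hS s hs
        have hsy : s < (y : ℤ) := by exact_mod_cast hs'.2
        have hs0 := hs'.1
        rw [mem_coe, surv, mem_filter, mem_Ioc]
        dsimp only
        refine ⟨by omega, fun p hp => hr p s hs ?_⟩
        have h2 := Int.emod_nonneg (-1 - r p) (hpos p).ne'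
        have h3 : (((-1 - r p) % ((p : ℕ) : ℤ)).toNat : ℤ) = (-1 - r p) % ((p : ℕ) : ℤ) :=
          Int.toNat_of_nonneg h2
        have h4 : (((s + 1).toNat : ℕ) : ℤ) = s + 1 := Int.toNat_of_nonneg (by omega)
        have h5 : ((p : ℕ) : ℤ) ∣ (-1 - r p) % ((p : ℕ) : ℤ) + (s + 1) := by
          rw [← h3, ← h4]
          exact_mod_cast hp
        have h6 : ((p : ℕ) : ℤ) ∣ (-1 - r p) - (-1 - r p) % ((p : ℕ) : ℤ) :=
          Int.dvd_self_sub_emod
        have h7 := dvd_add h5 h6
        have h8 : (-1 - r p) % ((p : ℕ) : ℤ) + (s + 1) + ((-1 - r p) -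
            (-1 - r p) % ((p : ℕ) : ℤ)) = s - r p := by ring
        rwa [h8] at h7
      · intro s hs t ht hst
        have h1 := (hS s hs).1
        have h2 := (hS t ht).1
        simp only at hst
        omega
    exact_mod_cast h1

end Pool.Agent.V8H75.HL
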