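import Pool.Agent.H381R2.HR.Glue

set_option autoImplicit false

namespace Pool.Agent.V8H75.HL

open Finset Filter Topology

/-- `1` and the primes in `(z, b]` -/
def rough (z b : ℕ) : Finset ℕ := (Icc 1 b).filter fun k => k = 1 ∨ (k.Prime ∧ z < k)

theorem card_rough (z b : ℕ) :
    (rough z b).card ≤ 1 + (Nat.primeCounting b - Nat.primeCounting z) := by
  by_cases hzb : z ≤ b
  · have h1 : rough z b ∪ (z + 1).primesBelow ⊆ insert 1 (b + 1).primesBelow := by
      intro k hk
      rw [mem_insert, Nat.mem_primesBelow]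
      rw [mem_union, rough, mem_filter, mem_Icc, Nat.mem_primesBelow] at hk
      rcases hk with ⟨h1, h2 | h2⟩ | h1
      · exact Or.inl h2
      · exact Or.inr ⟨by omega, h2.1⟩
      · exact Or.inr ⟨by omega, h1.2⟩
    have h2 : Disjoint (rough z b) (z + 1).primesBelow := by
      rw [disjoint_left]
      intro k hk hk'
      rw [rough, mem_filter] at hk
      rw [Nat.mem_primesBelow] at hk'
      rcases hk.2 with h | h
      · exact Nat.not_prime_one (h ▸ hk'.2)
      · omega
    have h3 := card_le_card h1
    rw [card_union_of_disjoint h2] at h3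
    have h4 := card_insert_le 1 (b + 1).primesBelow
    have e1 : (b + 1).primesBelow.card = Nat.primeCounting b :=
      Nat.primesBelow_card_eq_primeCounting' _
    have e2 : (z + 1).primesBelow.card = Nat.primeCounting z :=
      Nat.primesBelow_card_eq_primeCounting' _
    omega
  · have h1 : rough z b ⊆ {1} := by
      intro k hk
      rw [rough, mem_filter, mem_Icc] at hk
      rw [mem_singleton]
      rcases hk.2 with h | h
      · exact h
      · omega
    have := card_le_card h1
    rw [card_singleton] at this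
    omega

theorem mem_rough {z b k m q : ℕ} (hk1 : 1 ≤ k) (hkb : k ≤ b) (hbz : b < z * z) (hq : q.Prime)
    (hqz : z < q) (hm : ∀ p : ℕ, p.Prime → p ≤ z → p ∣ m) (h : q = m + k ∨ m = q + k) :
    k ∈ rough z b := by
  rw [rough, mem_filter, mem_Icc]
  refine ⟨⟨hk1, hkb⟩, ?_⟩
  have hno : ∀ p : ℕ, p.Prime → p ≤ z → ¬ p ∣ k := by
    intro p hp hpz hpk
    have h1 := hm p hp hpz
    have h2 : p ∣ q := by
      rcases h with h | h
      · rw [h]; exact dvd_add h1 hpk
      · rw [h] at h1
        exact (Nat.dvd_add_left hpk).1 h1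
    have := (Nat.prime_dvd_prime_iff_eq hp hq).1 h2
    omega
  by_cases hk : k = 1
  · exact Or.inl hk
  right
  have hf := Nat.minFac_prime hk
  have hz : z < k.minFac := by
    by_contra hc
    exact hno _ hf (by omega) (Nat.minFac_dvd k)
  have hkp : k.Prime := by
    by_contra hkp
    have h1 := Nat.minFac_sq_le_self (by omega) hkp
    have h2 : z * z < k.minFac ^ 2 := by nlinarith
    omega
  exact ⟨hkp, hz.trans_le (Nat.minFac_le (by omega))⟩

theorem window_near {x y z m : ℕ} (hz2 : 2 ≤ z) (hxz : z ≤ x) (hyz : y < z * z) (hxm : x ≤ m)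
    (hmy : m ≤ x + y) (hm : ∀ p : ℕ, p.Prime → p ≤ z → p ∣ m) :
    ((Ioc x (x + y)).filter Nat.Prime).card ≤
      (rough z (m - x)).card + (rough z (x + y - m)).card := by
  have h1 : (Ioc x (x + y)).filter Nat.Prime ⊆
      (rough z (m - x)).image (fun k => m - k) ∪ (rough z (x + y - m)).image (fun k => m + k) := by
    intro q hq
    rw [mem_filter, mem_Ioc] at hq
    obtain ⟨⟨hq1, hq2⟩, hqp⟩ := hq
    rw [mem_union, mem_image, mem_image]
    rcases lt_trichotomy q m with h | h | h
    · left
      refine ⟨m - q, ?_, by omega⟩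
      exact mem_rough (by omega) (by omega) (by omega) hqp (by omega) hm (Or.inr (by omega))
    · exfalso
      have h2 := hm 2 Nat.prime_two hz2
      rw [← h] at h2
      have := (Nat.prime_dvd_prime_iff_eq Nat.prime_two hqp).1 h2
      omega
    · right
      refine ⟨q - m, ?_, by omega⟩
      exact mem_rough (by omega) (by omega) (by omega) hqp (by omega) hm (Or.inl (by omega))
  exact (card_le_card h1).trans ((card_union_le _ _).trans
    (Nat.add_le_add card_image_le card_image_le))

theorem log_step {a y L : ℝ} (ha : 0 < a) (hay : a ≤ y) (hL : L = Real.log y)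
    (h2 : L / 2 ≤ Real.log a) (hL0 : 0 < L) : a / Real.log a ≤ a / L + 2 * (y / L ^ 2) := by
  have hla : 0 < Real.log a := by linarith
  have hy : 0 < y := ha.trans_le hay
  have h1 : a * (L - Real.log a) ≤ y := by
    have h3 : L - Real.log a = Real.log (y / a) := by rw [hL, Real.log_div hy.ne' ha.ne']
    rw [h3]
    have h4 := Real.log_le_self (show 0 ≤ y / a by positivity)
    calc a * Real.log (y / a) ≤ a * (y / a) := mul_le_mul_of_nonneg_left h4 ha.le
      _ = y := by field_simp
  have h5 : a / Real.log a = a / L + a * (L - Real.log a) * (1 / (L * Real.log a)) := by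
    field_simp; ring
  have h6 : 1 / (L * Real.log a) ≤ 2 / L ^ 2 := by
    rw [div_le_div_iff₀ (by positivity) (by positivity)]
    nlinarith
  rw [h5]
  have h7 : a * (L - Real.log a) * (1 / (L * Real.log a)) ≤ y * (2 / L ^ 2) :=
    mul_le_mul h1 h6 (by positivity) hy.le
  have h8 : y * (2 / L ^ 2) = 2 * (y / L ^ 2) := by ring
  linarith

theorem near_bound : ∃ C : ℝ, 0 < C ∧ ∀ M : ℝ, ∀ᶠ y : ℕ in atTop, ∀ a b z : ℕ, a + b ≤ y →
    C * (y / Real.log y) ≤ z → z ≤ y →
    ((1 + (Nat.primeCounting a - Nat.primeCounting z) +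
      (1 + (Nat.primeCounting b - Nat.primeCounting z)) : ℕ) : ℝ) ≤ Nat.primeCounting y - M := by
  obtain ⟨C0, hC0, hP⟩ := Pool.Agent.H381R2.HR.Asm.pnt2
  have hlog : Tendsto (fun y : ℕ => Real.log y) atTop atTop :=
    Real.tendsto_log_atTop.comp tendsto_natCast_atTop_atTop
  have hq : Tendsto (fun y : ℕ => (y : ℝ) / Real.log y ^ 2) atTop atTop := by
    have h1 := (Real.isLittleO_pow_log_id_atTop (n := 2)).tendsto_div_nhds_zero
    have h2 : Tendsto (fun x : ℝ => x / Real.log x ^ 2) atTop atTop := by
      have h3 : Tendsto (fun x : ℝ => (Real.log x ^ 2 / x)⁻¹) atTop atTop := by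
        apply Tendsto.inv_tendsto_nhdsGT_zero
        rw [tendsto_nhdsWithin_iff]
        refine ⟨h1, ?_⟩
        filter_upwards [eventually_gt_atTop 1] with x hx
        have := Real.log_pos hx
        have h0 : (0 : ℝ) < x := by linarith
        exact div_pos (by positivity) h0
      refine h3.congr fun x => ?_
      rw [inv_div]
    exact h2.comp tendsto_natCast_atTop_atTop
  refine ⟨6 + 5 * C0, by positivity, fun M => ?_⟩
  filter_upwards [hlog.eventually_ge_atTop (4 * C0 + 2), hq.eventually_ge_atTop (|M| + 2),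
    hq.eventually_ge_atTop 1, eventually_ge_atTop 3] with y h1 h2 h3 h4 a b z hab hz hzy
  set L : ℝ := Real.log y with hL
  have hL0 : 0 < L := by linarith
  have hy0 : (0 : ℝ) < y := by exact_mod_cast (show 0 < y by omega)
  -- `z ≥ √y`
  have hzL : (y : ℝ) / L ≤ z := by
    have : (y : ℝ) / L ≤ (6 + 5 * C0) * (y / L) := by
      have : 0 < (y : ℝ) / L := by positivity
      nlinarith
    linarith
  have hyL2 : L ^ 2 ≤ y := by
    rw [le_div_iff₀ (by positivity)] at h3
    linarith
  have hzz : (y : ℝ) ≤ z * z := by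
    have h5 : (y : ℝ) / L * (y / L) ≤ z * z := mul_le_mul hzL hzL (by positivity) (by positivity)
    have h6 : (y : ℝ) ≤ y / L * (y / L) := by
      rw [div_mul_div_comm, le_div_iff₀ (by positivity)]
      nlinarith
    linarith
  have hz0 : (0 : ℝ) < z := by
    have : 0 < (y : ℝ) / L := by positivity
    linarith
  have hlz : L / 2 ≤ Real.log z := by
    have h5 : L ≤ Real.log (z * z) := Real.log_le_log hy0 hzz
    rw [Real.log_mul hz0.ne' hz0.ne'] at h5
    linarith
  have hz2 : (2 : ℝ) ≤ z := by
    by_contra hc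
    push Not at hc
    have : z < 2 := by exact_mod_cast hc
    interval_cases z
    · norm_num at hz0
    · norm_num at hzz
      have : (3 : ℝ) ≤ y := by exact_mod_cast h4
      linarith
  -- lower bounds
  have hπ : ∀ n : ℕ, 2 ≤ (n : ℝ) → |(Nat.primeCounting n : ℝ) - n / Real.log n| ≤
      C0 * (n / (Real.log n) ^ 2) := fun n hn => by
    have := hP n hn
    rwa [Nat.floor_natCast] at this
  have hπz : (6 + 5 * C0) * (y / L ^ 2) ≤ 2 * Nat.primeCounting z := by
    have h5 := (abs_le.1 (hπ z hz2)).1
    set l : ℝ := Real.log z with hl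
    have hl0 : 0 < l := by linarith
    have hlL : l ≤ L := Real.log_le_log hz0 (by exact_mod_cast hzy)
    have h6 : C0 * ((z : ℝ) / l ^ 2) ≤ (1 / 2) * (z / l) := by
      have h7 : (1 / 2) * ((z : ℝ) / l) = (l / 2) * (z / l ^ 2) := by field_simp
      rw [h7]
      exact mul_le_mul_of_nonneg_right (by linarith) (by positivity)
    have h7 : (z : ℝ) / L ≤ z / l := div_le_div_of_nonneg_left hz0.le hl0 hlL
    have h8 : (6 + 5 * C0) * (y / L ^ 2) ≤ z / L := by
      have : (6 + 5 * C0) * (y / L ^ 2) = ((6 + 5 * C0) * (y / L)) / L := by field_simp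
      rw [this]
      exact div_le_div_of_nonneg_right hz hL0.le
    linarith
  have hπy : (y : ℝ) / L - C0 * (y / L ^ 2) ≤ Nat.primeCounting y := by
    have := (abs_le.1 (hπ y (by exact_mod_cast (show 2 ≤ y by omega)))).1
    linarith
  have hup : ∀ n : ℕ, z ≤ n → n ≤ y →
      (Nat.primeCounting n : ℝ) ≤ n / L + 2 * (y / L ^ 2) + 4 * C0 * (n / L ^ 2) := by
    intro n hzn hny
    have hznr : (z : ℝ) ≤ n := by exact_mod_cast hzn
    have hn0 : (0 : ℝ) < n := by linarith
    have h5 := (abs_le.1 (hπ n (by linarith))).2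
    have hln : L / 2 ≤ Real.log n := hlz.trans (Real.log_le_log hz0 hznr)
    have h6 := log_step hn0 (by exact_mod_cast hny) hL hln hL0
    have h7 : (n : ℝ) / Real.log n ^ 2 ≤ 4 * (n / L ^ 2) := by
      have : 4 * ((n : ℝ) / L ^ 2) = n / (L / 2) ^ 2 := by field_simp; norm_num
      rw [this]
      exact div_le_div_of_nonneg_left hn0.le (by positivity)
        (pow_le_pow_left₀ (by positivity) hln 2)
    have h8 := mul_le_mul_of_nonneg_left h7 hC0.le
    linarith
  have hMa := le_abs_self M
  have hbig : |M| + 2 ≤ (y : ℝ) / L ^ 2 := h2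
  have hpos : 0 < (y : ℝ) / L ^ 2 := by positivity
  have hmon : ∀ n : ℕ, n ≤ y → Nat.primeCounting n ≤ Nat.primeCounting y :=
    fun n hn => Nat.monotone_primeCounting hn
  have hzyc := hmon z hzy
  have hMz : M + 2 ≤ (Nat.primeCounting z : ℝ) := by nlinarith
  rcases le_total (Nat.primeCounting a) (Nat.primeCounting z) with ha | ha
  · have h5 : 1 + (Nat.primeCounting a - Nat.primeCounting z) +
      (1 + (Nat.primeCounting b - Nat.primeCounting z)) + Nat.primeCounting z ≤
        2 + Nat.primeCounting y := by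
      have := hmon b (by omega)
      omega
    have h6 := (Nat.cast_le (α := ℝ)).2 h5
    push_cast at h6 ⊢
    linarith
  · rcases le_total (Nat.primeCounting b) (Nat.primeCounting z) with hb | hb
    · have h5 : 1 + (Nat.primeCounting a - Nat.primeCounting z) +
        (1 + (Nat.primeCounting b - Nat.primeCounting z)) + Nat.primeCounting z ≤
          2 + Nat.primeCounting y := by
        have := hmon a (by omega)
        omega
      have h6 := (Nat.cast_le (α := ℝ)).2 h5
      push_cast at h6 ⊢
      linarith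
    · by_cases hza : z ≤ a ∧ z ≤ b
      · have g1 := hup a hza.1 (by omega)
        have g2 := hup b hza.2 (by omega)
        have g3 : (a : ℝ) + b ≤ y := by exact_mod_cast hab
        have g4 : (a : ℝ) / L + b / L ≤ y / L := by
          rw [← add_div]
          exact div_le_div_of_nonneg_right g3 hL0.le
        have g5 : 4 * C0 * (a / L ^ 2) + 4 * C0 * (b / L ^ 2) ≤ 4 * C0 * (y / L ^ 2) := by
          have : 4 * C0 * (a / L ^ 2) + 4 * C0 * (b / L ^ 2) = 4 * C0 * ((a + b) / L ^ 2) := by ring
          rw [this]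
          gcongr
        rw [Nat.cast_add, Nat.cast_add, Nat.cast_add, Nat.cast_sub ha, Nat.cast_sub hb]
        push_cast
        nlinarith
      · rw [not_and_or, not_le, not_le] at hza
        have h5 : 1 + (Nat.primeCounting a - Nat.primeCounting z) +
          (1 + (Nat.primeCounting b - Nat.primeCounting z)) + Nat.primeCounting z ≤
            2 + Nat.primeCounting y := by
          have e1 := hmon a (by omega)
          have e2 := hmon b (by omega)
          rcases hza with h | h
          · have := Nat.monotone_primeCounting h.le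
            omega
          · have := Nat.monotone_primeCounting h.le
            omega
        have h6 := (Nat.cast_le (α := ℝ)).2 h5
        push_cast at h6 ⊢
        linarith

/-- windows which contain a multiple of the product of the primes up to `C y / log y` -/
theorem near : ∃ C : ℝ, 0 < C ∧ ∀ M : ℝ, ∀ᶠ y : ℕ in atTop, ∀ x m : ℕ, y ≤ x → x ≤ m →
    m ≤ x + y → (∀ p : ℕ, p.Prime → (p : ℝ) ≤ C * (y / Real.log y) → p ∣ m) →
    (((Ioc x (x + y)).filter Nat.Prime).card : ℝ) ≤ Nat.primeCounting y - M := by
  obtain ⟨C, hC, h⟩ := near_bound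
  have hlog : Tendsto (fun y : ℕ => Real.log y) atTop atTop :=
    Real.tendsto_log_atTop.comp tendsto_natCast_atTop_atTop
  refine ⟨C + 1, by positivity, fun M => ?_⟩
  filter_upwards [h M, hlog.eventually_ge_atTop (C + 1), eventually_ge_atTop 9,
    hlog.eventually_ge_atTop (1 / C)] with y hy h1 h2 h1C x m hyx hxm hmy hdvd
  have hy0 : (0 : ℝ) < y := by exact_mod_cast (show 0 < y by omega)
  set L : ℝ := Real.log y with hL
  have hL0 : 0 < L := by linarith
  have hLs : L ≤ Real.sqrt y := by
    have h3 := Real.log_le_sub_one_of_pos (show 0 < Real.sqrt y / 2 by positivity)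
    have h4 : Real.log (Real.sqrt y / 2) = L / 2 - Real.log 2 := by
      rw [Real.log_div (by positivity) (by norm_num), Real.log_sqrt hy0.le]
    have h5 := Real.log_two_lt_d9
    rw [h4] at h3
    have h6 : L / 2 ≤ Real.sqrt y / 2 - 1 + 0.6931471808 := by linarith
    linarith
  have hss := Real.mul_self_sqrt hy0.le
  have hs0 : 0 < Real.sqrt y := by positivity
  have hyL1 : 1 ≤ (y : ℝ) / L := by
    rw [le_div_iff₀ hL0, one_mul]
    nlinarith [show (1 : ℝ) ≤ Real.sqrt y by
      rw [Real.one_le_sqrt]; exact_mod_cast (show 1 ≤ y by omega)]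
  set z : ℕ := ⌊(C + 1) * (y / L)⌋₊ with hz
  have hz1 : (z : ℝ) ≤ (C + 1) * (y / L) := Nat.floor_le (by positivity)
  have hz2 : (C + 1) * (y / L) - 1 < z := Nat.sub_one_lt_floor _
  have hz3 : C * (y / L) ≤ z := by nlinarith
  have hzy : z ≤ y := by
    have h5 : (C + 1) * (y / L) ≤ y := by
      rw [mul_div_assoc', div_le_iff₀ hL0]
      nlinarith
    exact_mod_cast hz1.trans h5
  have hyLs : Real.sqrt y ≤ y / L := by
    rw [le_div_iff₀ hL0]
    nlinarith
  have hCs : 1 ≤ C * Real.sqrt y := by
    rw [div_le_iff₀ hC] at h1C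
    nlinarith
  have hzs : Real.sqrt y < z := by nlinarith
  have hzz : y < z * z := by
    have : (y : ℝ) < z * z := by nlinarith
    exact_mod_cast this
  have hz22 : 2 ≤ z := by
    by_contra hc
    push Not at hc
    have : z * z ≤ 1 * 1 := Nat.mul_le_mul (by omega) (by omega)
    omega
  have hdvd' : ∀ p : ℕ, p.Prime → p ≤ z → p ∣ m := fun p hp hpz =>
    hdvd p hp ((Nat.cast_le.2 hpz).trans hz1)
  have g1 := window_near hz22 (hzy.trans hyx) hzz hxm hmy hdvd'
  have g2 := card_rough z (m - x)
  have g3 := card_rough z (x + y - m)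
  have g4 : ((Ioc x (x + y)).filter Nat.Prime).card ≤
      1 + (Nat.primeCounting (m - x) - Nat.primeCounting z) +
      (1 + (Nat.primeCounting (x + y - m) - Nat.primeCounting z)) := g1.trans (Nat.add_le_add g2 g3)
  exact ((Nat.cast_le (α := ℝ)).2 g4).trans (hy (m - x) (x + y - m) z (by omega) hz3 hzy)

end Pool.Agent.V8H75.HL
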