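import Pool.Agent.V8H75.HL.Fin

set_option autoImplicit false

namespace Pool.Agent.V8H75.HL

open Finset Filter Topology

/-- restriction of a vector of residues to a smaller set of primes -/
def res {S S' : Finset ℕ} (h : S ⊆ S') (a : S' → ℕ) : S → ℕ := fun p => a ⟨p, h p.2⟩

theorem fiber {S S' : Finset ℕ} (h : S ⊆ S') (B : (S → ℕ) → Prop) [DecidablePred B] :
    (((box S').filter fun a => B (res h a)).card : ℝ) ≤
      ((box S).filter B).card * ∏ p ∈ S' \ S, (p : ℝ) := by
  have h1 : ((box S').filter fun a => B (res h a)).card ≤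
      (((box S).filter B) ×ˢ box (S' \ S)).card := by
    refine card_le_card_of_injOn
      (fun a => (res h a, fun p : (S' \ S : Finset ℕ) => a ⟨p, (mem_sdiff.1 p.2).1⟩)) ?_ ?_
    · intro a ha
      rw [mem_coe, mem_filter, box, Fintype.mem_piFinset] at ha
      rw [mem_coe, mem_product, mem_filter, box, box, Fintype.mem_piFinset, Fintype.mem_piFinset]
      exact ⟨⟨fun p => ha.1 ⟨p, h p.2⟩, ha.2⟩, fun p => ha.1 ⟨p, (mem_sdiff.1 p.2).1⟩⟩
    · intro a _ b _ hab
      rw [Prod.mk.injEq] at hab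
      funext p
      by_cases hp : (p : ℕ) ∈ S
      · exact congrFun hab.1 ⟨p, hp⟩
      · exact congrFun hab.2 ⟨p, mem_sdiff.2 ⟨p.2, hp⟩⟩
  rw [card_product] at h1
  rw [← card_box]
  exact_mod_cast h1

theorem window_le' (u v y x : ℕ) (huy : u ≤ y) (hyv : y ≤ v) (hx : y ≤ x)
    (a : primesTo u → ℕ) (ha : ∀ p : primesTo u, x ≡ a p [MOD p]) :
    (Nat.primeCounting (x + y) : ℝ) - Nat.primeCounting x ≤ (surv (primesTo u) v a).card := by
  have h1 : (x + y + 1).primesBelow ⊆
      (x + 1).primesBelow ∪ (surv (primesTo u) v a).image (fun h => x + h) := by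
    intro q hq
    rw [Nat.mem_primesBelow] at hq
    rw [mem_union, mem_image]
    by_cases hqx : q < x + 1
    · exact Or.inl (Nat.mem_primesBelow.2 ⟨hqx, hq.2⟩)
    · refine Or.inr ⟨q - x, ?_, by omega⟩
      rw [surv, mem_filter, mem_Ioc]
      refine ⟨by omega, fun p hp => ?_⟩
      have hpp := prime_of_mem p.2
      have hpy : (p : ℕ) ≤ u := (mem_Icc.1 (mem_filter.1 p.2).1).2
      have h2 : x + (q - x) ≡ a p + (q - x) [MOD p] := Nat.ModEq.add_right _ (ha p)
      have h3 : (p : ℕ) ∣ x + (q - x) := (Nat.ModEq.dvd_iff h2 dvd_rfl).2 hp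
      have h4 : x + (q - x) = q := by omega
      rw [h4] at h3
      have h5 := (Nat.prime_dvd_prime_iff_eq hpp hq.2).1 h3
      omega
  have h2 := (card_le_card h1).trans (card_union_le _ _)
  have h3 := card_image_le (s := surv (primesTo u) v a) (f := fun h => x + h)
  have e1 : (x + y + 1).primesBelow.card = Nat.primeCounting (x + y) :=
    Nat.primesBelow_card_eq_primeCounting' _
  have e2 : (x + 1).primesBelow.card = Nat.primeCounting x :=
    Nat.primesBelow_card_eq_primeCounting' _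
  rw [e1, e2] at h2
  have h4 : Nat.primeCounting (x + y) ≤ Nat.primeCounting x + (surv (primesTo u) v a).card :=
    h2.trans (Nat.add_le_add_left h3 _)
  have h5 : (Nat.primeCounting (x + y) : ℝ) ≤
      Nat.primeCounting x + (surv (primesTo u) v a).card := by exact_mod_cast h4
  linarith

/-- Some window of the class `a` whose length is between `Y` and `Z` has too many primes; here only
the residues modulo the primes up to the length are prescribed. -/
def Bad (Y Z : ℕ) (c : ℝ) (a : primesTo Z → ℕ) : Prop :=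
  ∃ y x : ℕ, Y ≤ y ∧ y ≤ Z ∧ y ≤ x ∧ (∀ p : primesTo Z, (p : ℕ) ≤ y → x ≡ a p [MOD p]) ∧
    (Nat.primeCounting y : ℝ) - c * (y / Real.log y) <
      (Nat.primeCounting (x + y) : ℝ) - Nat.primeCounting x

theorem primesTo_mono {u Z : ℕ} (h : u ≤ Z) : primesTo u ⊆ primesTo Z := by
  intro p hp
  rw [primesTo, mem_filter, mem_Icc] at hp ⊢
  exact ⟨⟨hp.1.1, hp.1.2.trans h⟩, hp.2⟩

open Classical in
theorem scale (u v Z : ℕ) (hu : u ≤ Z) (T t : ℝ) (ht : 0 < t)
    (hT : v * ∏ p ∈ primesTo u, (1 - (p : ℝ)⁻¹) + t ≤ T) :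
    (((box (primesTo Z)).filter fun a =>
      T < ((surv (primesTo u) v (res (primesTo_mono hu) a)).card : ℝ)).card : ℝ) ≤
      (∏ p ∈ primesTo Z, (p : ℝ)) * (v * ∏ p ∈ primesTo u, (1 - (p : ℝ)⁻¹)) / t ^ 2 := by
  have h1 := fiber (primesTo_mono hu) (fun b : primesTo u → ℕ =>
    v * ∏ p ∈ primesTo u, (1 - (p : ℝ)⁻¹) + t ≤ ((surv (primesTo u) v b).card : ℝ))
  have h2 := chebyshev (primesTo u) (fun p hp => prime_of_mem hp) v t ht
  have h3 : (((box (primesTo Z)).filter fun a =>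
      T < ((surv (primesTo u) v (res (primesTo_mono hu) a)).card : ℝ)).card : ℝ) ≤
      (((box (primesTo Z)).filter fun a => v * ∏ p ∈ primesTo u, (1 - (p : ℝ)⁻¹) + t ≤
        ((surv (primesTo u) v (res (primesTo_mono hu) a)).card : ℝ)).card : ℝ) := by
    refine (Nat.cast_le (α := ℝ)).2 (card_le_card fun a ha => ?_)
    rw [mem_filter] at ha ⊢
    exact ⟨ha.1, hT.trans ha.2.le⟩
  have hprod : (∏ p ∈ primesTo Z \ primesTo u, (p : ℝ)) * ∏ p ∈ primesTo u, (p : ℝ) =
      ∏ p ∈ primesTo Z, (p : ℝ) := prod_sdiff (primesTo_mono hu)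
  have h4 : 0 ≤ ∏ p ∈ primesTo Z \ primesTo u, (p : ℝ) := prod_nonneg fun p _ => Nat.cast_nonneg p
  have h5 := mul_le_mul_of_nonneg_right h2 h4
  refine h3.trans (h1.trans (h5.trans (le_of_eq ?_)))
  rw [← hprod]
  ring

open Classical in
theorem simultaneous {c : ℝ} (hc : c < 1 - Real.exp (-Real.eulerMascheroniConstant)) :
    ∃ (C : ℝ) (Y₀ : ℕ), ∀ Y Z : ℕ, Y₀ ≤ Y →
      (((box (primesTo Z)).filter (Bad Y Z c)).card : ℝ) ≤
      C * (Real.log Y / Y) * ∏ p ∈ primesTo Z, (p : ℝ) := by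
  set g : ℝ := Real.exp (-Real.eulerMascheroniConstant) with hg
  have hg0 : 0 < g := Real.exp_pos _
  set δ : ℝ := (1 - g - c) / 4 with hδ
  have hδ0 : 0 < δ := by rw [hδ]; linarith
  set η : ℝ := δ / (g + δ) with hη
  have hη0 : 0 < η := by positivity
  have hηg : (1 + η) * (g + δ) = g + 2 * δ := by rw [hη]; field_simp; ring
  obtain ⟨C0, hC0, hpnt⟩ := pnt
  have hlog : Tendsto (fun y : ℕ => Real.log y) atTop atTop :=
    Real.tendsto_log_atTop.comp tendsto_natCast_atTop_atTop
  obtain ⟨Y₀, hY₀⟩ := eventually_atTop.1 ((mertens.eventually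
    (gt_mem_nhds (show g < g + δ by linarith))).and ((hlog.eventually_ge_atTop (C0 / δ)).and
      ((hlog.eventually_ge_atTop 2).and (eventually_ge_atTop 2))))
  set s : ℝ := Real.sqrt (1 + η) with hs
  have hs1 : 1 < s := by
    rw [hs]
    exact Real.lt_sqrt_of_sq_lt (by linarith) |>.trans_le le_rfl
  set r : ℝ := s⁻¹ with hr
  have hr0 : 0 < r := by positivity
  have hr1 : r < 1 := inv_lt_one_of_one_lt₀ hs1
  refine ⟨(g + 2 * δ) / δ ^ 2 * (1 - r)⁻¹, Y₀, fun Y Z hY => ?_⟩
  have hY2 : 2 ≤ Y := (hY₀ Y hY).2.2.2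
  have hYpos : (0 : ℝ) < Y := by exact_mod_cast (show 0 < Y by omega)
  set Q : ℝ := ∏ p ∈ primesTo Z, (p : ℝ) with hQ
  have hQ0 : 0 ≤ Q := prod_nonneg fun p _ => Nat.cast_nonneg p
  set u : ℕ → ℕ := fun k => ⌈(Y : ℝ) * (1 + η) ^ k⌉₊ with hu
  set v : ℕ → ℕ := fun k => ⌊(Y : ℝ) * (1 + η) ^ (k + 1)⌋₊ with hv
  set T : ℕ → ℝ := fun k => (1 - δ - c) * ((u k : ℝ) / Real.log (u k)) with hT
  set F : ℕ → Finset (primesTo Z → ℕ) := fun k => if h : u k ≤ Z then
    (box (primesTo Z)).filter (fun a => T k <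
      ((surv (primesTo (u k)) (v k) (res (primesTo_mono h) a)).card : ℝ)) else ∅
    with hF
  have huY : ∀ k, Y ≤ u k := by
    intro k
    have h1 : (Y : ℝ) ≤ Y * (1 + η) ^ k := by
      have : (1 : ℝ) ≤ (1 + η) ^ k := one_le_pow₀ (by linarith)
      nlinarith
    have h2 := h1.trans (Nat.le_ceil _)
    exact_mod_cast h2
  -- the bound for one scale
  have hone : ∀ k, ((F k).card : ℝ) ≤ (g + 2 * δ) / δ ^ 2 * (Real.log Y / Y) * Q * r ^ k := by
    intro k
    by_cases hk : u k ≤ Z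
    swap
    · have : F k = ∅ := dif_neg hk
      rw [this]
      have : 0 ≤ Real.log Y := Real.log_natCast_nonneg Y
      simp only [card_empty, Nat.cast_zero]
      positivity
    obtain ⟨h1, h2, h3, h4⟩ := hY₀ (u k) (hY.trans (huY k))
    have hu0 : (0 : ℝ) < u k := by exact_mod_cast (show 0 < u k by omega)
    set L : ℝ := Real.log (u k) with hL
    have hL0 : 0 < L := by linarith
    set w : ℝ := ∏ p ∈ primesTo (u k), (1 - (p : ℝ)⁻¹) with hw
    have hw0 : 0 ≤ w := prod_nonneg fun p hp => by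
      have h5 : (1 : ℝ) ≤ p := by exact_mod_cast (prime_of_mem hp).one_lt.le
      have := inv_le_one_of_one_le₀ h5
      linarith
    have hw1 : w ≤ (g + δ) / L := by
      rw [le_div_iff₀ hL0]
      linarith [mul_comm L w]
    have hvk : (v k : ℝ) ≤ (1 + η) * u k := by
      have h5 : (v k : ℝ) ≤ Y * (1 + η) ^ (k + 1) := Nat.floor_le (by positivity)
      have h6 : (Y : ℝ) * (1 + η) ^ k ≤ u k := Nat.le_ceil _
      calc (v k : ℝ) ≤ Y * (1 + η) ^ (k + 1) := h5
        _ = (1 + η) * (Y * (1 + η) ^ k) := by ring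
        _ ≤ (1 + η) * u k := mul_le_mul_of_nonneg_left h6 (by linarith)
    have hvw : (v k : ℝ) * w ≤ (g + 2 * δ) * (u k / L) := by
      calc (v k : ℝ) * w ≤ ((1 + η) * u k) * ((g + δ) / L) :=
            mul_le_mul hvk hw1 hw0 (by positivity)
        _ = ((1 + η) * (g + δ)) * (u k / L) := by ring
        _ = (g + 2 * δ) * (u k / L) := by rw [hηg]
    have hTk : v k * w + δ * (u k / L) ≤ T k := by
      have h5 : 0 < (u k : ℝ) / L := by positivity
      have h6 : T k = (g + 3 * δ) * ((u k : ℝ) / L) := by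
        show (1 - δ - c) * ((u k : ℝ) / Real.log (u k)) = _
        rw [← hL]
        have : 1 - δ - c = g + 3 * δ := by rw [hδ]; ring
        rw [this]
      rw [h6]
      nlinarith
    have hFk : F k = (box (primesTo Z)).filter (fun a => T k <
      ((surv (primesTo (u k)) (v k) (res (primesTo_mono hk) a)).card : ℝ)) := dif_pos hk
    have hcard := scale (u k) (v k) Z hk (T k) (δ * (u k / L)) (by positivity) hTk
    rw [← hFk] at hcard
    have hdec : L / u k ≤ (Real.log Y / Y) * r ^ k := by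
      have hYe : Real.exp 2 ≤ (Y : ℝ) := by
        rw [← Real.le_log_iff_exp_le hYpos]
        exact (hY₀ Y hY).2.2.1
      have hue : Real.exp 2 ≤ (u k : ℝ) := by
        rw [← Real.le_log_iff_exp_le hu0]
        exact h3
      have huYr : (Y : ℝ) ≤ u k := by exact_mod_cast huY k
      have h9 : L / Real.sqrt (u k) ≤ Real.log Y / Real.sqrt Y :=
        Real.log_div_sqrt_antitoneOn hYe hue huYr
      have h10 : Real.sqrt Y * s ^ k ≤ Real.sqrt (u k) := by
        apply Real.le_sqrt_of_sq_le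
        have e2 : (Real.sqrt Y * s ^ k) ^ 2 = Y * (1 + η) ^ k := by
          rw [mul_pow, Real.sq_sqrt hYpos.le, ← pow_mul, mul_comm k 2, pow_mul, hs,
            Real.sq_sqrt (by linarith)]
        rw [e2]
        exact Nat.le_ceil _
      have hsY : 0 < Real.sqrt Y := Real.sqrt_pos.2 hYpos
      have hsu : 0 < Real.sqrt (u k) := Real.sqrt_pos.2 hu0
      have hlY : 0 ≤ Real.log Y := Real.log_natCast_nonneg Y
      calc L / u k = L / (Real.sqrt (u k) * Real.sqrt (u k)) := by
            rw [Real.mul_self_sqrt hu0.le]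
        _ = (L / Real.sqrt (u k)) * (Real.sqrt (u k))⁻¹ := by
            rw [← div_div, div_eq_mul_inv (L / Real.sqrt (u k))]
        _ ≤ (Real.log Y / Real.sqrt Y) * (Real.sqrt Y * s ^ k)⁻¹ := by
            gcongr
        _ = Real.log Y / (Real.sqrt Y * Real.sqrt Y) * (s ^ k)⁻¹ := by
            rw [mul_inv, ← div_div, div_eq_mul_inv (Real.log Y / Real.sqrt Y)]
            ring
        _ = (Real.log Y / Y) * r ^ k := by
            rw [Real.mul_self_sqrt hYpos.le, hr, inv_pow]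
    calc ((F k).card : ℝ) ≤ Q * (v k * w) / (δ * (u k / L)) ^ 2 := hcard
      _ = ((v k * w) / (δ * (u k / L)) ^ 2) * Q := by ring
      _ ≤ (((g + 2 * δ) * (u k / L)) / (δ * (u k / L)) ^ 2) * Q := by gcongr
      _ = (g + 2 * δ) / δ ^ 2 * (L / u k) * Q := by field_simp
      _ ≤ (g + 2 * δ) / δ ^ 2 * ((Real.log Y / Y) * r ^ k) * Q := by gcongr
      _ = (g + 2 * δ) / δ ^ 2 * (Real.log Y / Y) * Q * r ^ k := by ring
  -- the union bound
  obtain ⟨K, hK⟩ := pow_unbounded_of_one_lt (Z : ℝ) (show (1 : ℝ) < 1 + η by linarith)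
  have hcover : (box (primesTo Z)).filter (Bad Y Z c) ⊆ (range K).biUnion F := by
    intro a ha
    rw [mem_filter] at ha
    obtain ⟨ha1, y, x, hYy, hyZ, hyx, hcl, hbad⟩ := ha
    have hy0 : (0 : ℝ) < y := by exact_mod_cast (show 0 < y by omega)
    have h1 : (1 : ℝ) ≤ y / Y := by
      rw [le_div_iff₀ hYpos, one_mul]
      exact_mod_cast hYy
    obtain ⟨k, hk1, hk2⟩ := exists_nat_pow_near h1 (show (1 : ℝ) < 1 + η by linarith)
    have huk : u k ≤ y := by
      apply Nat.ceil_le.2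
      rw [le_div_iff₀ hYpos] at hk1
      linarith [mul_comm ((1 + η) ^ k) (Y : ℝ)]
    have hvk : y ≤ v k := by
      apply Nat.le_floor
      rw [div_lt_iff₀ hYpos] at hk2
      linarith [mul_comm ((1 + η) ^ (k + 1)) (Y : ℝ)]
    have hkK : k < K := by
      by_contra hkK
      push Not at hkK
      have h2 : (1 + η) ^ K ≤ (1 + η) ^ k := pow_le_pow_right₀ (by linarith) hkK
      have h3 : (y : ℝ) / Y ≤ y := div_le_self hy0.le (by exact_mod_cast (show 1 ≤ Y by omega))
      have h4 : (y : ℝ) ≤ Z := by exact_mod_cast hyZ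
      linarith
    rw [mem_biUnion]
    refine ⟨k, mem_range.2 hkK, ?_⟩
    have hukZ : u k ≤ Z := huk.trans hyZ
    have hFk : F k = (box (primesTo Z)).filter (fun a => T k <
      ((surv (primesTo (u k)) (v k) (res (primesTo_mono hukZ) a)).card : ℝ)) :=
      dif_pos hukZ
    rw [hFk, mem_filter]
    refine ⟨ha1, ?_⟩
    have h5 := window_le' (u k) (v k) y x huk hvk hyx
      (res (primesTo_mono hukZ) a) (fun p => by
        have hp : (p : ℕ) ≤ u k := (mem_Icc.1 (mem_filter.1 p.2).1).2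
        exact hcl ⟨p, primesTo_mono hukZ p.2⟩ (hp.trans huk))
    refine lt_of_le_of_lt ?_ (hbad.trans_le h5)
    -- `T k ≤ π(y) - c y / log y`
    obtain ⟨-, h2, h3, h4⟩ := hY₀ y (hY.trans hYy)
    have h6 := hpnt y h4
    set L : ℝ := Real.log y with hL
    have hL0 : 0 < L := by linarith
    have h7 : C0 * (y / L ^ 2) ≤ δ * (y / L) := by
      have h7 : C0 ≤ δ * L := by
        rw [div_le_iff₀ hδ0] at h2
        linarith [mul_comm δ L]
      have h8 : δ * (y / L) = (δ * L) * (y / L ^ 2) := by field_simp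
      rw [h8]
      exact mul_le_mul_of_nonneg_right h7 (by positivity)
    have h8 : (u k : ℝ) / Real.log (u k) ≤ y / L := by
      obtain ⟨-, -, g3, g4⟩ := hY₀ (u k) (hY.trans (huY k))
      have hu0 : (0 : ℝ) < u k := by exact_mod_cast (show 0 < u k by omega)
      have hue : Real.exp 1 ≤ (u k : ℝ) := by
        rw [← Real.le_log_iff_exp_le hu0]; linarith
      have hye : Real.exp 1 ≤ (y : ℝ) := by
        rw [← Real.le_log_iff_exp_le hy0]; linarith
      have h9 : Real.log y / y ≤ Real.log (u k) / u k :=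
        Real.log_div_self_antitoneOn hue hye (by exact_mod_cast huk)
      have h10 : 0 < Real.log y / y := by positivity
      have h11 := inv_anti₀ h10 h9
      rwa [inv_div, inv_div] at h11
    have h9 : 0 ≤ 1 - δ - c := by
      have : 1 - δ - c = g + 3 * δ := by rw [hδ]; ring
      rw [this]; positivity
    have h10 : T k ≤ (1 - δ - c) * (y / L) := mul_le_mul_of_nonneg_left h8 h9
    have h11 : (1 - δ - c) * (y / L) = y / L - δ * (y / L) - c * (y / L) := by ring
    linarith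
  have h1 : (((box (primesTo Z)).filter (Bad Y Z c)).card : ℝ) ≤ ∑ k ∈ range K, ((F k).card : ℝ) := by
    exact_mod_cast (card_le_card hcover).trans card_biUnion_le
  refine h1.trans ((sum_le_sum fun k _ => hone k).trans ?_)
  rw [← mul_sum]
  have h2 : ∑ k ∈ range K, r ^ k ≤ (1 - r)⁻¹ := by
    rw [← tsum_geometric_of_lt_one hr0.le hr1]
    exact (summable_geometric_of_lt_one hr0.le hr1).sum_le_tsum _ fun k _ => by positivity
  have hlY : 0 ≤ Real.log Y := Real.log_natCast_nonneg Y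
  calc (g + 2 * δ) / δ ^ 2 * (Real.log Y / Y) * Q * ∑ k ∈ range K, r ^ k
      ≤ (g + 2 * δ) / δ ^ 2 * (Real.log Y / Y) * Q * (1 - r)⁻¹ := by gcongr
    _ = (g + 2 * δ) / δ ^ 2 * (1 - r)⁻¹ * (Real.log Y / Y) * Q := by ring

end Pool.Agent.V8H75.HL
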