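import Mathlib

set_option autoImplicit false

/-!
# The variance of the number of survivors of a sieve in a window

For each prime `p` of a finite set `S` one residue class is removed from the window `(0, y]`.
-/

namespace Pool.Agent.V8H75.HL

open Finset

/-- The residues `a p`, `0 ≤ a p < p`, for `p` in `S`. -/
def box (S : Finset ℕ) : Finset (S → ℕ) := Fintype.piFinset fun p : S => range (p : ℕ)

/-- The integers `h` in `(0, y]` such that `a p + h` is not divisible by `p`, for all `p` in `S`. -/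
def surv (S : Finset ℕ) (y : ℕ) (a : S → ℕ) : Finset ℕ :=
  (Ioc 0 y).filter fun h => ∀ p : S, ¬ (p : ℕ) ∣ a p + h

/-- the residue `r` with `p ∣ r + h` -/
def rr (p h : ℕ) : ℕ := (p - h % p) % p

theorem rr_lt {p : ℕ} (hp : 0 < p) (h : ℕ) : rr p h < p := Nat.mod_lt _ hp

theorem dvd_rr {p : ℕ} (hp : 0 < p) (h : ℕ) : p ∣ rr p h + h := by
  unfold rr
  have h1 : h % p < p := Nat.mod_lt _ hp
  rw [Nat.dvd_iff_mod_eq_zero, Nat.add_mod, Nat.mod_mod, ← Nat.add_mod]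
  have h2 : (p - h % p + h) = p * (h / p) + p := by
    have := Nat.div_add_mod h p
    omega
  rw [h2]
  simp

theorem dvd_iff {p : ℕ} (hp : 0 < p) (h r : ℕ) (hr : r < p) : p ∣ r + h ↔ r = rr p h := by
  constructor
  · intro hd
    have h1 := dvd_rr hp h
    have h2 : r ≡ rr p h [MOD p] := by
      apply Nat.ModEq.add_right_cancel' h
      exact ((Nat.modEq_zero_iff_dvd.2 hd).trans (Nat.modEq_zero_iff_dvd.2 h1).symm)
    exact Nat.ModEq.eq_of_lt_of_lt h2 hr (rr_lt hp h)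
  · rintro rfl
    exact dvd_rr hp h

theorem card_one {p : ℕ} (hp : 0 < p) (h : ℕ) :
    (((range p).filter fun r => ¬ p ∣ r + h).card : ℝ) = (p : ℝ) - 1 := by
  have h1 : (range p).filter (fun r => ¬ p ∣ r + h) = (range p).erase (rr p h) := by
    ext r
    simp only [mem_filter, mem_range, mem_erase]
    constructor
    · rintro ⟨h1, h2⟩
      exact ⟨fun e => h2 ((dvd_iff hp h r h1).2 e), h1⟩
    · rintro ⟨h1, h2⟩
      exact ⟨h2, fun e => h1 ((dvd_iff hp h r h2).1 e)⟩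
  rw [h1, card_erase_of_mem (mem_range.2 (rr_lt hp h)), card_range, Nat.cast_sub (by omega)]
  simp

theorem card_two {p : ℕ} (hp : 2 ≤ p) (h k : ℕ) :
    (((range p).filter fun r => ¬ p ∣ r + h ∧ ¬ p ∣ r + k).card : ℝ) =
      (if h ≡ k [MOD p] then 1 else 0) + ((p : ℝ) - 2) := by
  have hp0 : 0 < p := by omega
  by_cases hk : h ≡ k [MOD p]
  · rw [if_pos hk]
    have h1 : (range p).filter (fun r => ¬ p ∣ r + h ∧ ¬ p ∣ r + k) =
        (range p).filter (fun r => ¬ p ∣ r + h) := by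
      apply filter_congr
      intro r _
      have : p ∣ r + h ↔ p ∣ r + k := (Nat.ModEq.dvd_iff (Nat.ModEq.add_left r hk) dvd_rfl)
      tauto
    rw [h1, card_one hp0]
    ring
  · rw [if_neg hk]
    have hne : rr p h ≠ rr p k := by
      intro e
      apply hk
      have h1 := dvd_rr hp0 h
      have h2 := dvd_rr hp0 k
      rw [← e] at h2
      apply Nat.ModEq.add_left_cancel' (rr p h)
      exact ((Nat.modEq_zero_iff_dvd.2 h1).trans (Nat.modEq_zero_iff_dvd.2 h2).symm)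
    have h1 : (range p).filter (fun r => ¬ p ∣ r + h ∧ ¬ p ∣ r + k) =
        ((range p).erase (rr p h)).erase (rr p k) := by
      ext r
      simp only [mem_filter, mem_range, mem_erase]
      constructor
      · rintro ⟨h1, h2, h3⟩
        exact ⟨fun e => h3 ((dvd_iff hp0 k r h1).2 e), fun e => h2 ((dvd_iff hp0 h r h1).2 e), h1⟩
      · rintro ⟨h1, h2, h3⟩
        exact ⟨h3, fun e => h2 ((dvd_iff hp0 h r h3).1 e), fun e => h1 ((dvd_iff hp0 k r h3).1 e)⟩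
    rw [h1, card_erase_of_mem, card_erase_of_mem (mem_range.2 (rr_lt hp0 h)), card_range,
      Nat.cast_sub (by omega), Nat.cast_sub (by omega)]
    · push_cast; ring
    · exact mem_erase.2 ⟨hne.symm, mem_range.2 (rr_lt hp0 k)⟩

theorem card_box (S : Finset ℕ) : ((box S).card : ℝ) = ∏ p ∈ S, (p : ℝ) := by
  unfold box
  rw [Fintype.card_piFinset]
  push_cast
  simp only [card_range]
  exact Finset.prod_coe_sort S fun p => (p : ℝ)

theorem card_filter_box (S : Finset ℕ) (Q : ℕ → ℕ → Prop) [∀ p r, Decidable (Q p r)] :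
    (((box S).filter fun a => ∀ p : S, Q p (a p)).card : ℝ) =
      ∏ p ∈ S, (((range p).filter fun r => Q p r).card : ℝ) := by
  have h1 : (box S).filter (fun a => ∀ p : S, Q p (a p)) =
      Fintype.piFinset fun p : S => (range (p : ℕ)).filter fun r => Q p r := by
    ext a
    simp only [box, mem_filter, Fintype.mem_piFinset]
    constructor
    · rintro ⟨h1, h2⟩ p
      exact ⟨h1 p, h2 p⟩
    · intro h
      exact ⟨fun p => (h p).1, fun p => (h p).2⟩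
  rw [h1, Fintype.card_piFinset]
  push_cast
  exact Finset.prod_coe_sort S fun p => (((range p).filter fun r => Q p r).card : ℝ)

theorem sum_card (S : Finset ℕ) (hS : ∀ p ∈ S, p.Prime) (y : ℕ) :
    ∑ a ∈ box S, ((surv S y a).card : ℝ) = y * ∏ p ∈ S, ((p : ℝ) - 1) := by
  have h1 : ∀ a : S → ℕ, ((surv S y a).card : ℝ) =
      ∑ h ∈ Ioc 0 y, if (∀ p : S, ¬ (p : ℕ) ∣ a p + h) then (1 : ℝ) else 0 := by
    intro a
    rw [surv, card_filter]
    push_cast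
    rfl
  simp_rw [h1]
  rw [sum_comm]
  have h2 : ∀ h ∈ Ioc 0 y, ∑ a ∈ box S, (if (∀ p : S, ¬ (p : ℕ) ∣ a p + h) then (1 : ℝ) else 0) =
      ∏ p ∈ S, ((p : ℝ) - 1) := by
    intro h _
    rw [← Finset.sum_filter, Finset.sum_const, nsmul_eq_mul, mul_one,
      card_filter_box S fun p r => ¬ p ∣ r + h]
    exact prod_congr rfl fun p hp => card_one (hS p hp).pos h
  rw [sum_congr rfl h2, sum_const, Nat.card_Ioc, nsmul_eq_mul]
  simp

theorem card_class (y g h : ℕ) (hg : 0 < g) :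
    (((Ioc 0 y).filter fun k => h ≡ k [MOD g]).card : ℝ) ≤ (y : ℝ) / g + 1 := by
  have h1 : (Ioc 0 y).filter (fun k => h ≡ k [MOD g]) =
      (Ioc 0 y).filter (fun k => k ≡ h [MOD g]) :=
    filter_congr fun k _ => ⟨Nat.ModEq.symm, Nat.ModEq.symm⟩
  have h2 := Nat.Ioc_filter_modEq_card 0 y hg h
  rw [h1]
  have h3 : (((Ioc 0 y).filter (fun k => k ≡ h [MOD g])).card : ℚ) ≤ (y : ℚ) / g + 1 := by
    have h4 : (((Ioc 0 y).filter (fun k => k ≡ h [MOD g])).card : ℚ) =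
        ((max (⌊((y : ℚ) - h) / g⌋ - ⌊(((0 : ℕ) : ℚ) - h) / g⌋) 0 : ℤ) : ℚ) := by
      exact_mod_cast h2
    rw [h4]
    push_cast
    apply max_le
    · have h5 := Int.floor_le (((y : ℚ) - h) / g)
      have h6 := Int.sub_one_lt_floor (((0 : ℚ) - h) / g)
      have h7 : ((y : ℚ) - h) / g - ((0 : ℚ) - h) / g = y / g := by ring
      linarith
    · positivity
  have h8 : (((((Ioc 0 y).filter (fun k => k ≡ h [MOD g])).card : ℚ)) : ℝ) ≤
      (((y : ℚ) / g + 1 : ℚ) : ℝ) := Rat.cast_le.2 h3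
  push_cast at h8
  exact h8

theorem sum_ind (T : Finset ℕ) (hT : ∀ p ∈ T, p.Prime) (y : ℕ) :
    ∑ h ∈ Ioc 0 y, ∑ k ∈ Ioc 0 y, ∏ p ∈ T, (if h ≡ k [MOD p] then (1 : ℝ) else 0) ≤
      (y : ℝ) ^ 2 * ∏ p ∈ T, (1 / (p : ℝ)) + y := by
  set g : ℕ := ∏ p ∈ T, p with hg
  have hg0 : 0 < g := prod_pos fun p hp => (hT p hp).pos
  have hgr : ∏ p ∈ T, (1 / (p : ℝ)) = 1 / (g : ℝ) := by
    rw [hg]
    push_cast
    simp [Finset.prod_inv_distrib]
  have h1 : ∀ h k : ℕ, ∏ p ∈ T, (if h ≡ k [MOD p] then (1 : ℝ) else 0) ≤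
      if h ≡ k [MOD g] then (1 : ℝ) else 0 := by
    intro h k
    by_cases hk : ∀ p ∈ T, h ≡ k [MOD p]
    · have h2 : h ≡ k [MOD g] := by
        rw [Nat.modEq_iff_dvd]
        have h3 : g ∣ ((k : ℤ) - h).natAbs := by
          rw [hg]
          refine Finset.prod_primes_dvd _ (fun p hp => (hT p hp).prime) fun p hp => ?_
          exact Int.natCast_dvd.1 ((Nat.modEq_iff_dvd).1 (hk p hp))
        exact Int.natCast_dvd.2 h3
      rw [if_pos h2]
      exact Finset.prod_le_one (fun p _ => by split_ifs <;> norm_num)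
        (fun p _ => by split_ifs <;> norm_num)
    · push Not at hk
      obtain ⟨p, hp, hpk⟩ := hk
      rw [Finset.prod_eq_zero hp (if_neg hpk)]
      split_ifs <;> norm_num
  calc ∑ h ∈ Ioc 0 y, ∑ k ∈ Ioc 0 y, ∏ p ∈ T, (if h ≡ k [MOD p] then (1 : ℝ) else 0)
      ≤ ∑ h ∈ Ioc 0 y, ∑ k ∈ Ioc 0 y, (if h ≡ k [MOD g] then (1 : ℝ) else 0) :=
        sum_le_sum fun h _ => sum_le_sum fun k _ => h1 h k
    _ ≤ ∑ h ∈ Ioc 0 y, ((y : ℝ) / g + 1) := by
        refine sum_le_sum fun h _ => ?_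
        rw [← Finset.sum_filter, Finset.sum_const, nsmul_eq_mul, mul_one]
        exact card_class y g h hg0
    _ = (y : ℝ) ^ 2 * ∏ p ∈ T, (1 / (p : ℝ)) + y := by
        rw [sum_const, Nat.card_Ioc, nsmul_eq_mul, hgr]
        simp only [Nat.sub_zero]
        ring

theorem sum_sq (S : Finset ℕ) (hS : ∀ p ∈ S, p.Prime) (y : ℕ) :
    ∑ a ∈ box S, ((surv S y a).card : ℝ) ^ 2 ≤
      (y : ℝ) ^ 2 * ∏ p ∈ S, (1 / (p : ℝ) + ((p : ℝ) - 2)) + y * ∏ p ∈ S, ((p : ℝ) - 1) := by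
  have h1 : ∀ a : S → ℕ, ((surv S y a).card : ℝ) ^ 2 =
      ∑ h ∈ Ioc 0 y, ∑ k ∈ Ioc 0 y,
        if (∀ p : S, ¬ (p : ℕ) ∣ a p + h ∧ ¬ (p : ℕ) ∣ a p + k) then (1 : ℝ) else 0 := by
    intro a
    rw [surv, card_filter]
    push_cast
    rw [sq, Finset.sum_mul_sum]
    refine sum_congr rfl fun h _ => sum_congr rfl fun k _ => ?_
    by_cases h1 : ∀ p : S, ¬ (p : ℕ) ∣ a p + h
    · by_cases h2 : ∀ p : S, ¬ (p : ℕ) ∣ a p + k
      · rw [if_pos h1, if_pos h2, if_pos fun p => ⟨h1 p, h2 p⟩, mul_one]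
      · rw [if_pos h1, if_neg h2, if_neg (fun h' => h2 fun p => (h' p).2), mul_zero]
    · rw [if_neg h1, zero_mul, if_neg (fun h' => h1 fun p => (h' p).1)]
  simp_rw [h1]
  rw [sum_comm]
  have h2 : ∀ h ∈ Ioc 0 y, ∑ a ∈ box S, ∑ k ∈ Ioc 0 y,
      (if (∀ p : S, ¬ (p : ℕ) ∣ a p + h ∧ ¬ (p : ℕ) ∣ a p + k) then (1 : ℝ) else 0) =
      ∑ k ∈ Ioc 0 y, ∑ T ∈ S.powerset, (∏ p ∈ T, (if h ≡ k [MOD p] then (1 : ℝ) else 0)) *
        ∏ p ∈ S \ T, ((p : ℝ) - 2) := by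
    intro h _
    rw [sum_comm]
    refine sum_congr rfl fun k _ => ?_
    rw [← Finset.sum_filter, Finset.sum_const, nsmul_eq_mul, mul_one,
      card_filter_box S fun p r => ¬ p ∣ r + h ∧ ¬ p ∣ r + k, ← Finset.prod_add]
    exact prod_congr rfl fun p hp => card_two (hS p hp).two_le h k
  rw [sum_congr rfl h2]
  have h3 : ∑ h ∈ Ioc 0 y, ∑ k ∈ Ioc 0 y, ∑ T ∈ S.powerset,
      (∏ p ∈ T, (if h ≡ k [MOD p] then (1 : ℝ) else 0)) * ∏ p ∈ S \ T, ((p : ℝ) - 2) =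
      ∑ T ∈ S.powerset, (∑ h ∈ Ioc 0 y, ∑ k ∈ Ioc 0 y,
        ∏ p ∈ T, (if h ≡ k [MOD p] then (1 : ℝ) else 0)) * ∏ p ∈ S \ T, ((p : ℝ) - 2) := by
    rw [sum_congr rfl fun h _ => sum_comm, sum_comm]
    refine sum_congr rfl fun T _ => ?_
    simp_rw [sum_mul]
  rw [h3, Finset.prod_add]
  have h4 : ∏ p ∈ S, ((p : ℝ) - 1) = ∏ p ∈ S, ((1 : ℝ) + ((p : ℝ) - 2)) :=
    prod_congr rfl fun p _ => by ring
  rw [h4, Finset.prod_add, mul_sum, mul_sum, ← sum_add_distrib]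
  refine sum_le_sum fun T hT => ?_
  have hT' : ∀ p ∈ T, p.Prime := fun p hp => hS p (mem_powerset.1 hT hp)
  have h5 : 0 ≤ ∏ p ∈ S \ T, ((p : ℝ) - 2) := by
    refine prod_nonneg fun p hp => ?_
    have : (2 : ℝ) ≤ p := by exact_mod_cast (hS p (mem_sdiff.1 hp).1).two_le
    linarith
  have h6 := mul_le_mul_of_nonneg_right (sum_ind T hT' y) h5
  refine h6.trans (le_of_eq ?_)
  rw [prod_const_one]
  ring

/-- The variance of the number of survivors. -/
theorem variance (S : Finset ℕ) (hS : ∀ p ∈ S, p.Prime) (y : ℕ) :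
    ∑ a ∈ box S, ((surv S y a).card - y * ∏ p ∈ S, (1 - (p : ℝ)⁻¹)) ^ 2 ≤
      (∏ p ∈ S, (p : ℝ)) * (y * ∏ p ∈ S, (1 - (p : ℝ)⁻¹)) := by
  set w : ℝ := ∏ p ∈ S, (1 - (p : ℝ)⁻¹) with hw
  set Q : ℝ := ∏ p ∈ S, (p : ℝ) with hQ
  have hp0 : ∀ p ∈ S, (p : ℝ) ≠ 0 := fun p hp => by exact_mod_cast (hS p hp).ne_zero
  have e1 : ∏ p ∈ S, ((p : ℝ) - 1) = Q * w := by
    rw [hQ, hw, ← prod_mul_distrib]
    exact prod_congr rfl fun p hp => by have := hp0 p hp; field_simp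
  have e2 : ∏ p ∈ S, (1 / (p : ℝ) + ((p : ℝ) - 2)) = Q * w ^ 2 := by
    rw [hQ, hw, ← prod_pow, ← prod_mul_distrib]
    exact prod_congr rfl fun p hp => by have := hp0 p hp; field_simp; ring
  have h1 := sum_card S hS y
  have h2 := sum_sq S hS y
  have h3 := card_box S
  rw [e1] at h1 h2
  rw [e2] at h2
  have h4 : ∑ a ∈ box S, ((surv S y a).card - y * w) ^ 2 =
      ∑ a ∈ box S, ((surv S y a).card : ℝ) ^ 2 - 2 * (y * w) * ∑ a ∈ box S, ((surv S y a).card : ℝ) +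
        (box S).card * (y * w) ^ 2 := by
    have h5 : ((box S).card : ℝ) * (y * w) ^ 2 = ∑ a ∈ box S, ((y : ℝ) * w) ^ 2 := by
      rw [sum_const, nsmul_eq_mul]
    rw [h5, mul_sum, ← sum_sub_distrib, ← sum_add_distrib]
    exact sum_congr rfl fun a _ => by ring
  rw [h4, h1, h3]
  nlinarith [h2]

/-- The proportion of the residue vectors with many survivors. -/
theorem chebyshev (S : Finset ℕ) (hS : ∀ p ∈ S, p.Prime) (y : ℕ) (t : ℝ) (ht : 0 < t) :
    (((box S).filter fun a =>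
      y * ∏ p ∈ S, (1 - (p : ℝ)⁻¹) + t ≤ ((surv S y a).card : ℝ)).card : ℝ) ≤
      (∏ p ∈ S, (p : ℝ)) * (y * ∏ p ∈ S, (1 - (p : ℝ)⁻¹)) / t ^ 2 := by
  rw [le_div_iff₀ (by positivity)]
  refine le_trans ?_ (variance S hS y)
  rw [← nsmul_eq_mul, ← sum_const]
  refine (sum_le_sum fun a ha => ?_).trans
    (sum_le_sum_of_subset_of_nonneg (filter_subset _ _) fun a _ _ => sq_nonneg _)
  have h := (mem_filter.1 ha).2
  have : t ≤ (surv S y a).card - y * ∏ p ∈ S, (1 - (p : ℝ)⁻¹) := by linarith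
  exact pow_le_pow_left₀ ht.le this 2

end Pool.Agent.V8H75.HL
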